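import Pool.Agent.Helper531.ES.Final

set_option autoImplicit false

/-!
# Ramsey numbers of tuples of trees: the stars are extremal

The upper bound uses the Erdős–Sós theorem of the library (`Helper531.ES.esProp`).
-/

open Finset

namespace Pool.Agent.Y732.OT

open Helper531.ES

variable {k : ℕ}

/-- Every colouring of the edges of `K_N` with `k` colours contains, for some colour `i`, a copy of
`T i` in colour `i`. -/
def Arr (m : Fin k → ℕ) (T : ∀ i, SimpleGraph (Fin (m i + 1))) (N : ℕ) : Prop :=
  ∀ c : Fin N → Fin N → Fin k, (∀ x y, c x y = c y x) →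
    ∃ (i : Fin k) (f : Fin (m i + 1) ↪ Fin N), ∀ a b, (T i).Adj a b → c (f a) (f b) = i

/-- the Ramsey number of the stars with `m i` edges -/
def starNum (m : Fin k → ℕ) : ℕ :=
  (∑ i, (m i - 1)) +
    if Even (univ.filter (fun i => Even (m i))).card ∧ 0 < (univ.filter (fun i => Even (m i))).card
      then 1 else 2

theorem par (m : Fin k → ℕ) (hm : ∀ i, 1 ≤ m i) :
    Odd (∑ i, (m i - 1)) ↔ Odd (univ.filter (fun i => Even (m i))).card := by
  rw [Finset.odd_sum_iff_odd_card_odd]
  have : (univ.filter (fun i => Odd (m i - 1))) = univ.filter (fun i => Even (m i)) := by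
    ext i
    simp only [mem_filter, mem_univ, true_and]
    have := hm i
    rw [Nat.odd_iff, Nat.even_iff]
    omega
  rw [this]

theorem upper (m : Fin k → ℕ) (hm : ∀ i, 1 ≤ m i)
    (T : ∀ i, SimpleGraph (Fin (m i + 1))) (hT : ∀ i, (T i).IsTree) : Arr m T (starNum m) := by
  intro c hc
  by_contra hcon
  have h : ∀ i : Fin k, 2 * (cg c hc i).edgeSet.ncard ≤ (m i - 1) * starNum m := by
    intro i
    by_contra hi
    obtain ⟨f, hf⟩ := mono_of_es esProp c hc (T i) (hT i) i (not_le.1 hi)
    exact hcon ⟨i, f, hf⟩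
  have h2 := sum_cg c hc
  have h3 : ∑ i, 2 * (cg c hc i).edgeSet.ncard ≤ (∑ i, (m i - 1)) * starNum m := by
    rw [Finset.sum_mul]
    exact Finset.sum_le_sum (fun i _ => h i)
  have hp := par m hm
  by_cases hE : Even (univ.filter (fun i => Even (m i))).card ∧
      0 < (univ.filter (fun i => Even (m i))).card
  · have hN : starNum m = (∑ i, (m i - 1)) + 1 := by
      unfold starNum
      rw [if_pos hE]
    obtain ⟨i, hi⟩ := Finset.card_pos.1 hE.2
    rw [mem_filter] at hi
    have hSe : Even (∑ i, (m i - 1)) := by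
      rw [← Nat.not_odd_iff_even, hp, Nat.not_odd_iff_even]
      exact hE.1
    have heq : ∀ j ∈ (univ : Finset (Fin k)), 2 * (cg c hc j).edgeSet.ncard =
        (m j - 1) * starNum m := by
      refine (Finset.sum_eq_sum_iff_of_le (fun j _ => h j)).1 ?_
      rw [h2, ← Finset.sum_mul, hN, Nat.add_sub_cancel, Nat.mul_comm]
    have h4 := heq i (mem_univ i)
    have hodd : Odd ((m i - 1) * starNum m) := by
      apply Odd.mul
      · have := hm i
        have := hi.2
        rw [Nat.even_iff] at this
        rw [Nat.odd_iff]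
        omega
      · rw [hN]
        exact hSe.add_one
    rw [← h4] at hodd
    exact (Nat.not_odd_iff_even.2 (even_two_mul _)) hodd
  · have hN : starNum m = (∑ i, (m i - 1)) + 2 := by
      unfold starNum
      rw [if_neg hE]
    rw [h2, hN, Nat.mul_comm] at h3
    have h5 := Nat.le_of_mul_le_mul_right h3 (by omega)
    omega

/-- a map from `Fin S` to the colours whose fibres have prescribed sizes -/
theorem fib (h : Fin k → ℕ) : ∃ g : Fin (∑ i, h i) → Fin k,
    ∀ i, (univ.filter (fun s => g s = i)).card = h i := by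
  refine ⟨fun s => (finSigmaFinEquiv.symm s).1, fun i => ?_⟩
  have : (univ.filter (fun s : Fin (∑ i, h i) => (finSigmaFinEquiv.symm s).1 = i)) =
      (univ : Finset (Fin (h i))).map
        ⟨fun t => finSigmaFinEquiv ⟨i, t⟩, fun a b hab => by
          have := finSigmaFinEquiv.injective hab
          simpa using this⟩ := by
    ext s
    simp only [mem_filter, mem_univ, true_and, mem_map, Function.Embedding.coeFn_mk]
    constructor
    · intro hs
      obtain ⟨⟨j, t⟩, rfl⟩ := finSigmaFinEquiv.surjective s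
      rw [Equiv.symm_apply_apply] at hs
      subst hs
      exact ⟨t, rfl⟩
    · rintro ⟨t, rfl⟩
      rw [Equiv.symm_apply_apply]
  rw [this, card_map, card_univ, Fintype.card_fin]

/-- A colouring in which every vertex has fewer than `m i` neighbours in colour `i` contains no
star. -/
theorem no_star (m : Fin k → ℕ) {N : ℕ} (c : Fin N → Fin N → Fin k)
    (hdeg : ∀ x i, (univ.filter (fun y => y ≠ x ∧ c x y = i)).card < m i)
    (i : Fin k) (f : Fin (m i + 1) ↪ Fin N) :
    ∃ a b, (SimpleGraph.starGraph (0 : Fin (m i + 1))).Adj a b ∧ c (f a) (f b) ≠ i := by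
  by_contra hcon
  push Not at hcon
  have h1 : ((univ : Finset (Fin (m i + 1))).erase 0).card ≤
      (univ.filter (fun y => y ≠ f 0 ∧ c (f 0) y = i)).card := by
    apply Finset.card_le_card_of_injOn f
    · intro b hb
      have hb0 : b ≠ 0 := Finset.ne_of_mem_erase (by exact_mod_cast hb)
      simp only [coe_filter, mem_univ, true_and, Set.mem_ofPred_eq]
      exact ⟨fun h => hb0 (f.injective h),
        hcon 0 b (SimpleGraph.starGraph_center_adj (Ne.symm hb0))⟩
    · exact f.injective.injOn
  rw [Finset.card_erase_of_mem (Finset.mem_univ _), Finset.card_univ, Fintype.card_fin] at h1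
  have := hdeg (f 0) i
  omega

/-- From an index of the edges at each vertex to a colouring without stars. -/
theorem col_of_idx (h : Fin k → ℕ) {N : ℕ} (idx : Fin N → Fin N → Fin (∑ i, h i))
    (hs : ∀ x y, idx x y = idx y x)
    (hi : ∀ x, Set.InjOn (idx x) {y | y ≠ x}) :
    ∃ c : Fin N → Fin N → Fin k, (∀ x y, c x y = c y x) ∧
      ∀ x i, (univ.filter (fun y => y ≠ x ∧ c x y = i)).card ≤ h i := by
  obtain ⟨g, hg⟩ := fib h
  refine ⟨fun x y => g (idx x y), fun x y => congrArg g (hs x y), fun x i => ?_⟩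
  rw [← hg i]
  apply Finset.card_le_card_of_injOn (idx x)
  · intro y hy
    simp only [coe_filter, mem_univ, true_and, Set.mem_ofPred_eq] at hy ⊢
    exact hy.2
  · intro y hy y' hy' hyy
    simp only [coe_filter, mem_univ, true_and, Set.mem_ofPred_eq] at hy hy'
    exact hi x hy.1 hy'.1 hyy

/-- `N = S`: the colouring by sums. -/
theorem idx_sum (S : ℕ) : ∃ idx : Fin S → Fin S → Fin S, (∀ x y, idx x y = idx y x) ∧
    ∀ x, Set.InjOn (idx x) {y | y ≠ x} := by
  refine ⟨fun x y => ⟨(x.1 + y.1) % S, Nat.mod_lt _ (by have := x.2; omega)⟩, fun x y => ?_,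
    fun x y _ y' _ hyy => ?_⟩
  · simp only [Fin.mk.injEq]
    rw [add_comm]
  · have h4 : y.1 ≡ y'.1 [MOD S] :=
      Nat.ModEq.add_left_cancel' x.1 (congrArg Fin.val hyy : (x.1 + y.1) % S = (x.1 + y'.1) % S)
    exact Fin.ext (Nat.ModEq.eq_of_lt_of_lt h4 y.2 y'.2)

/-- `N = S + 1` with `S` odd: the one-factorisation. -/
theorem idx_fac (S : ℕ) (hS : Odd S) :
    ∃ idx : Fin (S + 1) → Fin (S + 1) → Fin S, (∀ x y, idx x y = idx y x) ∧
      ∀ x, Set.InjOn (idx x) {y | y ≠ x} := by
  have hS0 : 0 < S := hS.pos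
  refine ⟨fun x y => ⟨(if x.1 = S then 2 * y.1 else if y.1 = S then 2 * x.1 else x.1 + y.1) % S,
    Nat.mod_lt _ hS0⟩, fun x y => ?_, fun x y hy y' hy' hyy => ?_⟩
  · simp only [Fin.mk.injEq]
    by_cases hx : x.1 = S
    · by_cases hy : y.1 = S
      · rw [hx, hy]
      · rw [if_pos hx, if_neg hy, if_pos hx]
    · by_cases hy : y.1 = S
      · rw [if_neg hx, if_pos hy, if_pos hy]
      · rw [if_neg hx, if_neg hy, if_neg hy, if_neg hx, add_comm]
  · have h1 : (if x.1 = S then 2 * y.1 else if y.1 = S then 2 * x.1 else x.1 + y.1) ≡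
        (if x.1 = S then 2 * y'.1 else if y'.1 = S then 2 * x.1 else x.1 + y'.1) [MOD S] :=
      congrArg Fin.val hyy
    have hyx : y.1 ≠ x.1 := fun h => hy (Fin.ext h)
    have hyx' : y'.1 ≠ x.1 := fun h => hy' (Fin.ext h)
    have e1 := x.2
    have e2 := y.2
    have e3 := y'.2
    by_cases hx : x.1 = S
    · rw [if_pos hx, if_pos hx] at h1
      have h2 : y.1 ≡ y'.1 [MOD S] :=
        Nat.ModEq.cancel_left_of_coprime (Nat.coprime_two_right.2 hS) h1
      exact Fin.ext (Nat.ModEq.eq_of_lt_of_lt h2 (by omega) (by omega))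
    · rw [if_neg hx, if_neg hx] at h1
      have key : ∀ u : ℕ, u < S → u ≠ x.1 → ¬ (2 * x.1 ≡ x.1 + u [MOD S]) := by
        intro u hu hux h
        rw [two_mul] at h
        have h2 := Nat.ModEq.add_left_cancel' x.1 h
        exact hux (Nat.ModEq.eq_of_lt_of_lt h2 (by omega) hu).symm
      by_cases hy1 : y.1 = S
      · by_cases hy2 : y'.1 = S
        · exact Fin.ext (hy1.trans hy2.symm)
        · rw [if_pos hy1, if_neg hy2] at h1
          exact absurd h1 (key _ (by omega) hyx')
      · by_cases hy2 : y'.1 = S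
        · rw [if_neg hy1, if_pos hy2] at h1
          exact absurd h1.symm (key _ (by omega) hyx)
        · rw [if_neg hy1, if_neg hy2] at h1
          have h2 := Nat.ModEq.add_left_cancel' x.1 h1
          exact Fin.ext (Nat.ModEq.eq_of_lt_of_lt h2 (by omega) (by omega))

/-- natural number version of `fib` -/
theorem fibN (h : Fin k → ℕ) (hk : 1 ≤ k) : ∃ γ : ℕ → Fin k,
    ∀ i, ((range (∑ i, h i)).filter (fun s => γ s = i)).card = h i := by
  obtain ⟨g, hg⟩ := fib h
  refine ⟨fun s => if hs : s < ∑ i, h i then g ⟨s, hs⟩ else ⟨0, hk⟩, fun i => ?_⟩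
  rw [← hg i]
  symm
  apply Finset.card_bij (fun (s : Fin (∑ i, h i)) _ => s.1)
  · intro s hs
    simp only [mem_filter, mem_univ, true_and, mem_range] at hs ⊢
    refine ⟨s.2, ?_⟩
    rw [dif_pos s.2]
    exact hs
  · intro s _ t _ hst
    exact Fin.ext hst
  · intro s hs
    simp only [mem_filter, mem_range] at hs
    refine ⟨⟨s, hs.1⟩, ?_, rfl⟩
    simp only [mem_filter, mem_univ, true_and]
    have := hs.2
    rw [dif_pos hs.1] at this
    exact this

/-- the difference of two residues -/
def df (N x y : ℕ) : ℕ := if y ≤ x then x - y else x + N - y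

/-- `N = 2 H + 1` and even degrees: the colouring by differences. -/
theorem col_diff (h : Fin k → ℕ) (hk : 1 ≤ k) (H : ℕ) (hH : H = ∑ i, h i) :
    ∃ c : Fin (2 * H + 1) → Fin (2 * H + 1) → Fin k,
      (∀ x y, c x y = c y x) ∧
      ∀ x i, (univ.filter (fun y => y ≠ x ∧ c x y = i)).card ≤ 2 * h i := by
  obtain ⟨γ, hγ⟩ := fibN h hk
  rw [← hH] at hγ
  refine ⟨fun x y => γ (min (df (2 * H + 1) x y) (2 * H + 1 - df (2 * H + 1) x y) - 1),
    fun x y => ?_, fun x i => ?_⟩
  · have hx := x.2
    have hy := y.2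
    show γ _ = γ _
    congr 2
    unfold df
    split_ifs <;> omega
  · have hx := x.2
    rw [← Finset.card_filter_add_card_filter_not (p := fun y : Fin (2 * H + 1) =>
      df (2 * H + 1) x y ≤ H)]
    have h2h : 2 * h i = h i + h i := two_mul _
    refine le_trans (add_le_add ?_ ?_) h2h.ge
    · rw [← hγ i]
      apply Finset.card_le_card_of_injOn (fun y => df (2 * H + 1) x y.1 - 1)
      · intro y hy
        simp only [coe_filter, mem_filter, mem_univ, true_and, Set.mem_ofPred_eq, mem_range]
          at hy ⊢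
        obtain ⟨⟨h1, h2⟩, h3⟩ := hy
        have hyx : y.1 ≠ x.1 := fun h => h1 (Fin.ext h)
        have hy2 := y.2
        have h4 : 1 ≤ df (2 * H + 1) x y := by
          unfold df
          split_ifs <;> omega
        have h5 : min (df (2 * H + 1) x y) (2 * H + 1 - df (2 * H + 1) x y) =
            df (2 * H + 1) x y := by omega
        rw [h5] at h2
        exact ⟨by omega, h2⟩
      · intro y hy y' hy' hyy
        simp only [coe_filter, mem_filter, mem_univ, true_and, Set.mem_ofPred_eq] at hy hy' hyy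
        have hyx : y.1 ≠ x.1 := fun h => hy.1.1 (Fin.ext h)
        have hyx' : y'.1 ≠ x.1 := fun h => hy'.1.1 (Fin.ext h)
        have hy2 := y.2
        have hy2' := y'.2
        apply Fin.ext
        unfold df at hyy
        split_ifs at hyy <;> omega
    · rw [← hγ i]
      apply Finset.card_le_card_of_injOn (fun y => 2 * H + 1 - df (2 * H + 1) x y.1 - 1)
      · intro y hy
        simp only [coe_filter, mem_filter, mem_univ, true_and, Set.mem_ofPred_eq, mem_range]
          at hy ⊢
        obtain ⟨⟨h1, h2⟩, h3⟩ := hy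
        have hyx : y.1 ≠ x.1 := fun h => h1 (Fin.ext h)
        have hy2 := y.2
        have h4 : df (2 * H + 1) x y ≤ 2 * H := by
          unfold df
          split_ifs <;> omega
        have h5 : min (df (2 * H + 1) x y) (2 * H + 1 - df (2 * H + 1) x y) =
            2 * H + 1 - df (2 * H + 1) x y := by omega
        rw [h5] at h2
        exact ⟨by omega, h2⟩
      · intro y hy y' hy' hyy
        simp only [coe_filter, mem_filter, mem_univ, true_and, Set.mem_ofPred_eq] at hy hy' hyy
        have hyx : y.1 ≠ x.1 := fun h => hy.1.1 (Fin.ext h)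
        have hyx' : y'.1 ≠ x.1 := fun h => hy'.1.1 (Fin.ext h)
        have hy2 := y.2
        have hy2' := y'.2
        apply Fin.ext
        unfold df at hyy
        split_ifs at hyy <;> omega

/-- a colouring of `K_{starNum m - 1}` in which every vertex has fewer than `m i` neighbours of
colour `i` -/
theorem exists_col (hk : 1 ≤ k) (m : Fin k → ℕ) (hm : ∀ i, 1 ≤ m i) :
    ∃ c : Fin (starNum m - 1) → Fin (starNum m - 1) → Fin k, (∀ x y, c x y = c y x) ∧
      ∀ x i, (univ.filter (fun y => y ≠ x ∧ c x y = i)).card < m i := by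
  have hp := par m hm
  have fin : ∀ N, (∃ c : Fin N → Fin N → Fin k, (∀ x y, c x y = c y x) ∧
      ∀ x i, (univ.filter (fun y => y ≠ x ∧ c x y = i)).card ≤ m i - 1) → starNum m - 1 = N →
      ∃ c : Fin (starNum m - 1) → Fin (starNum m - 1) → Fin k, (∀ x y, c x y = c y x) ∧
        ∀ x i, (univ.filter (fun y => y ≠ x ∧ c x y = i)).card < m i := by
    rintro N ⟨c, hc, hd⟩ hN
    rw [hN]
    refine ⟨c, hc, fun x i => ?_⟩
    have := hd x i
    have := hm i
    omega
  by_cases hE : Even (univ.filter (fun i => Even (m i))).card ∧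
      0 < (univ.filter (fun i => Even (m i))).card
  · have hN : starNum m - 1 = ∑ i, (m i - 1) := by
      unfold starNum
      rw [if_pos hE, Nat.add_sub_cancel]
    obtain ⟨idx, h1, h2⟩ := idx_sum (∑ i, (m i - 1))
    exact fin _ (col_of_idx (fun i => m i - 1) idx h1 h2) hN
  · have hN : starNum m - 1 = (∑ i, (m i - 1)) + 1 := by
      unfold starNum
      rw [if_neg hE]
      rfl
    by_cases hO : Odd (univ.filter (fun i => Even (m i))).card
    · obtain ⟨idx, h1, h2⟩ := idx_fac (∑ i, (m i - 1)) (hp.2 hO)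
      exact fin _ (col_of_idx (fun i => m i - 1) idx h1 h2) hN
    · have h0 : (univ.filter (fun i => Even (m i))).card = 0 := by
        rw [Nat.not_odd_iff_even] at hO
        by_contra hne
        exact hE ⟨hO, Nat.pos_of_ne_zero hne⟩
      have hodd : ∀ i, Odd (m i) := by
        intro i
        rw [← Nat.not_even_iff_odd]
        intro hi
        rw [Finset.card_eq_zero] at h0
        have : i ∈ univ.filter (fun i => Even (m i)) := mem_filter.2 ⟨mem_univ i, hi⟩
        rw [h0] at this
        exact absurd this (Finset.notMem_empty i)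
      have h2 : ∀ i, 2 * ((m i - 1) / 2) = m i - 1 := by
        intro i
        obtain ⟨t, ht⟩ := hodd i
        omega
      obtain ⟨c, hc, hd⟩ := col_diff (fun i => (m i - 1) / 2) hk _ rfl
      have hN2 : starNum m - 1 = 2 * (∑ i, (m i - 1) / 2) + 1 := by
        rw [hN, Finset.mul_sum]
        congr 1
        exact Finset.sum_congr rfl (fun i _ => (h2 i).symm)
      refine fin _ ⟨c, hc, fun x i => ?_⟩ hN2
      have := hd x i
      simp only [h2 i] at this
      exact this

/-- the lower bound for stars -/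
theorem lower (hk : 1 ≤ k) (m : Fin k → ℕ) (hm : ∀ i, 1 ≤ m i) (N : ℕ)
    (hN : Arr m (fun i => SimpleGraph.starGraph (0 : Fin (m i + 1))) N) : starNum m ≤ N := by
  by_contra hlt
  obtain ⟨c, hc, hd⟩ := exists_col hk m hm
  have hle : N ≤ starNum m - 1 := by omega
  obtain ⟨i, f, hf⟩ := hN (fun x y => c (Fin.castLE hle x) (Fin.castLE hle y))
    (fun x y => hc _ _)
  obtain ⟨a, b, hab, hne⟩ := no_star m c hd i (f.trans (Fin.castLEEmb hle))
  exact hne (hf a b hab)

theorem exists_least (m : Fin k → ℕ) (hm : ∀ i, 1 ≤ m i)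
    (T : ∀ i, SimpleGraph (Fin (m i + 1))) (hT : ∀ i, (T i).IsTree) :
    ∃ r, IsLeast {N | Arr m T N} r ∧ r ≤ starNum m := by
  classical
  have h := upper m hm T hT
  exact ⟨Nat.find ⟨_, h⟩, ⟨Nat.find_spec ⟨_, h⟩, fun x hx => Nat.find_min' _ hx⟩,
    Nat.find_min' _ h⟩

theorem star_least (hk : 1 ≤ k) (m : Fin k → ℕ) (hm : ∀ i, 1 ≤ m i) :
    IsLeast {N | Arr m (fun i => SimpleGraph.starGraph (0 : Fin (m i + 1))) N} (starNum m) :=
  ⟨upper m hm _ (fun _ => SimpleGraph.isTree_starGraph _), fun N hN => lower hk m hm N hN⟩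

end Pool.Agent.Y732.OT
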